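import Pool.Agent.V11150.TwA

/-!
# Lenstra's set for `F = ℚ(i)`, complex conjugation, `k = 2` and the groups `⟨2 n ^ r⟩`, uniformly in `r`

`Lens r n` is the set of the primes `p ≡ 3 mod 4` not dividing `2 n ^ r` for which the index of the group
generated by `2 n ^ r` modulo `p` divides `2`, that is the set `𝒮(F, C, W, k)` for `F = ℚ(i)`, `C` the class of
complex conjugation, `W = ⟨2 n ^ r⟩` and `k = 2`; `P r n x` is the number of its elements up to `x` and `A` is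
Artin's constant. For the primes `l ∣ r` the number `2 n ^ r` is an `l`-th power residue modulo `p` if and only
if `2` is. So the family interpolates between the average over all bases (`r = 1`) and the base `2`.

(1) For all `η > 0`, `C > 1` there is `b > 0` such that for every `ε > 0` there is `δ₀ > 0` such that for every
`L` and all large `N`: for every set `E` of at most `N ^ b` positive exponents `r`, each with at most
`N ^ (1 / 4)` prime factors and with `∑_{l ∣ r, l > L} 1 / l ≤ δ₀`, all but at most `η N` of the integers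
`1 ≤ n ≤ N` satisfy `|P r n x - A π(x)| ≤ ε π(x)` for EVERY exponent `r ∈ E` and EVERY `x` with
`N ^ C ≤ x ≤ exp (N ^ b)`.

(2) Let `0 < α`, `1 / 2 + 2 α < θ < 1` and `C > 1` with `θ (1 - θ) < C (2 θ - 1)`. There is `b > 0` such that
for every `ε > 0` there is `δ₀ > 0` such that for every `L` and all large `y`: for EVERY integer `m` with
`1 ≤ m ≤ exp (√y)` and every set `E` of at most `y ^ b` exponents as in (1) (with `y` instead of `N`) all but
at most `y ^ θ` of the PRIMES `q ≤ y` satisfy `|P r (m q) x - A π(x)| ≤ ε π(x)` for EVERY `r ∈ E` and EVERY `x`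
with `y ^ C ≤ x ≤ exp (y ^ α)`.

Starting library: `Pool.Agent.W54.AD` (Kummer theory and local densities for this family of counting problems),
helper171 (uniformity in a family), helper401 (density theorem of Chebotarev), helper386, helper771, helper981
(large sieve, local counts).
-/

set_option autoImplicit false

namespace Pool.Agent.Results.MP_48b1c3_nt.ManyExponentsAtOnce

open Finset Classical

/-- `p ≡ 3 mod 4`, `p` does not divide `2 n ^ r`, and the index of the group generated by `2 n ^ r` in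
`(ℤ/p)ˣ` divides `2` -/
def Lens (r n p : ℕ) : Prop :=
  p.Prime ∧ p % 4 = 3 ∧ ∃ u : (ZMod p)ˣ, (u : ZMod p) = 2 * (n : ZMod p) ^ r ∧
    (Subgroup.zpowers u).index ∣ 2

/-- the number of primes `p ≤ x` in the set of Lenstra -/
noncomputable def P (r n x : ℕ) : ℕ := ((range (x + 1)).filter (fun p : ℕ => Lens r n p)).card

/-- Artin's constant -/
noncomputable def A : ℝ := ∏' p : Nat.Primes, (1 - 1 / (((p : ℕ) : ℝ) * (((p : ℕ) : ℝ) - 1)))

theorem result :
    (∀ η C : ℝ, 0 < η → 1 < C →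
      ∃ b : ℝ, 0 < b ∧ ∀ ε : ℝ, 0 < ε → ∃ δ₀ : ℝ, 0 < δ₀ ∧ ∀ L : ℕ, ∃ N₀ : ℕ, ∀ N : ℕ, N₀ ≤ N →
      ∀ E : Finset ℕ, (E.card : ℝ) ≤ (N : ℝ) ^ b →
        (∀ r ∈ E, 1 ≤ r ∧ (r.primeFactors.card : ℝ) ≤ (N : ℝ) ^ (1 / 4 : ℝ) ∧
          ∑ l ∈ r.primeFactors.filter (fun l : ℕ => L < l), (1 / (l : ℝ)) ≤ δ₀) →
        (((Finset.Icc 1 N).filter (fun n : ℕ => ∃ r ∈ E,
          ∃ x : ℕ, ((N : ℝ) ^ C ≤ x ∧ (x : ℝ) ≤ Real.exp ((N : ℝ) ^ b)) ∧
            ε * (Nat.primeCounting x : ℝ) <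
              |(P r n x : ℝ) - A * (Nat.primeCounting x : ℝ)|)).card : ℝ) ≤ η * N) ∧
    (∀ α θ C : ℝ, 0 < α → 1 / 2 + 2 * α < θ → θ < 1 → 1 < C → θ * (1 - θ) < C * (2 * θ - 1) →
      ∃ b : ℝ, 0 < b ∧ ∀ ε : ℝ, 0 < ε → ∃ δ₀ : ℝ, 0 < δ₀ ∧ ∀ L : ℕ, ∃ y₀ : ℕ, ∀ y : ℕ, y₀ ≤ y →
      ∀ m : ℕ, 1 ≤ m → (m : ℝ) ≤ Real.exp (√(y : ℝ)) →
      ∀ E : Finset ℕ, (E.card : ℝ) ≤ (y : ℝ) ^ b →
        (∀ r ∈ E, 1 ≤ r ∧ (r.primeFactors.card : ℝ) ≤ (y : ℝ) ^ (1 / 4 : ℝ) ∧
          ∑ l ∈ r.primeFactors.filter (fun l : ℕ => L < l), (1 / (l : ℝ)) ≤ δ₀) →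
        (((Finset.range (y + 1)).filter (fun q : ℕ => q.Prime ∧ ∃ r ∈ E,
          ∃ x : ℕ, ((y : ℝ) ^ C ≤ x ∧ (x : ℝ) ≤ Real.exp ((y : ℝ) ^ α)) ∧
            ε * (Nat.primeCounting x : ℝ) <
              |(P r (m * q) x : ℝ) - A * (Nat.primeCounting x : ℝ)|)).card : ℝ) ≤
          (y : ℝ) ^ θ) :=
  ⟨fun η C hη hC => Pool.Agent.V11150.TwA.ints η C hη hC,
    fun α θ C hα hθ hθ1 hC hCθ => Pool.Agent.V11150.TwA.primes α θ C hα hθ hθ1 hC hCθ⟩

end Pool.Agent.Results.MP_48b1c3_nt.ManyExponentsAtOnce
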