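import Pool.Agent.Results.MP_48b1c3_nt.FewExceptions
import Pool.Agent.V1176.SQ.Pad

/-!
# Lenstra's density for the groups `⟨W₀, D t ^ r⟩`, for ALL integers `t` in small residue classes

Let `1 / 2 < θ < 1` and `C₀ > 1` with `θ (1 - θ) < C₀ (2 θ - 1)`.  The file `FewExceptions` of this problem
shows that Lenstra's asymptotic formula for the groups `W = ⟨W₀, D t ^ r⟩` holds uniformly for
`N ^ C₀ ≤ x ≤ exp ((log N) ^ (1 + c))`, for all but at most `N ^ θ` of the `t ≤ N`.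

Here: let `p` be a prime number, `σ > 0` and `C₁ > C₀`.  For every `p`-adic integer `α` outside a set of
Hausdorff dimension at most `θ / σ` and for ALL data of Q1 (all finite Galois extensions `F`, all conjugation
stable `C`, all finitely generated `W₀`, all `k`), all `D`, all admissible `r` and all `ε > 0`, for all large
`Y`, ALL the integers `1 ≤ t ≤ Y` with `|t - α|_p ≤ Y ^ (-σ)`, that is, all `t ≤ Y` in the residue class of
`α` modulo the power of `p` next to `Y ^ σ`, satisfy `|S(x) - δ(F, C, W, k) π(x)| ≤ ε π(x)`,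
`W = ⟨W₀, D t ^ r⟩`, for every `x` with `t ^ C₁ ≤ x ≤ exp ((log t) ^ (1 + c))`.  For `θ < σ < 1` these are
about `Y ^ (1 - σ)` integers, for almost every `α`.
-/

set_option autoImplicit false

namespace Pool.Agent.Results.MP_48b1c3_nt.ResidueClasses

open NumberField Finset Filter Classical
open Pool.Agent.Results.MP_48b1c3_nt.FewExceptions (S δ)

/-- the group `⟨W₀, D t ^ r⟩` -/
def gp (W₀ : Subgroup ℚˣ) (D : ℚˣ) (r t : ℕ) : Subgroup ℚˣ :=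
  W₀ ⊔ Subgroup.closure {w : ℚˣ | (w : ℚ) = (D : ℚ) * (t : ℚ) ^ r}

lemma countable_closure : Countable (AlgebraicClosure ℚ) := by
  have h := Algebraic.countable ℚ (AlgebraicClosure ℚ)
  have h2 : {x : AlgebraicClosure ℚ | IsAlgebraic ℚ x} = Set.univ :=
    Set.eq_univ_of_forall fun x => (AlgebraicClosure.isAlgebraic ℚ).isAlgebraic x
  rw [h2] at h
  exact Set.countable_univ_iff.1 h

lemma countable_fields :
    Countable {K : IntermediateField ℚ (AlgebraicClosure ℚ) // NumberField K} := by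
  have := countable_closure
  have hsurj : ∀ K : {K : IntermediateField ℚ (AlgebraicClosure ℚ) // NumberField K},
      ∃ x : AlgebraicClosure ℚ, IntermediateField.adjoin ℚ {x} = K.1 := by
    rintro ⟨K, hK⟩
    have h1 : @FiniteDimensional ℚ K _ _ (K.algebra').toModule := by
      have h := hK.to_finiteDimensional
      convert h
    obtain ⟨y, hy⟩ := @Field.exists_primitive_element ℚ K _ _ K.algebra' h1 _
    refine ⟨(y : AlgebraicClosure ℚ), ?_⟩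
    rw [← IntermediateField.lift_adjoin_simple, hy, IntermediateField.lift_top]
  choose f hf using hsurj
  refine Function.Injective.countable (f := f) fun K L h => Subtype.ext ?_
  rw [← hf K, ← hf L, h]

/-- the data: the field, the set `C`, generators of `W₀`, and `k`, `D`, `r`, `j` (`ε = 1 / (j + 1)`) -/
abbrev Ix : Type := Σ F : {F : IntermediateField ℚ (AlgebraicClosure ℚ) // NumberField F},
  Set (F.1 ≃ₐ[ℚ] F.1) × Finset ℚˣ × ℕ × ℚˣ × ℕ × ℕ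

lemma countable_ix : Countable Ix := by
  have := countable_fields
  have : Countable ℚˣ := Units.val_injective.countable
  have : ∀ F : {F : IntermediateField ℚ (AlgebraicClosure ℚ) // NumberField F},
      Finite (F.1 ≃ₐ[ℚ] F.1) := by
    rintro ⟨F, hF⟩
    have := hF
    infer_instance
  infer_instance

/-- the exceptional pairs, for `x` between `R₁` and `R₂` -/
def Bad (x : Ix) (R₁ R₂ : ℝ) (t : ℕ) : Prop :=
  haveI := x.1.2
  IsGalois ℚ x.1.1 ∧ (∀ σ ∈ x.2.1, ∀ τ : x.1.1 ≃ₐ[ℚ] x.1.1, τ * σ * τ⁻¹ ∈ x.2.1) ∧ 0 < x.2.2.2.1 ∧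
    0 < x.2.2.2.2.2.1 ∧
    (∀ l : ℕ, l.Prime → l ∣ x.2.2.2.2.2.1 → l ^ (x.2.2.2.1.factorization l + 1) ∣ x.2.2.2.2.2.1) ∧
    ∃ y : ℕ, (R₁ ≤ y ∧ (y : ℝ) ≤ R₂) ∧
      1 / ((x.2.2.2.2.2.2 : ℝ) + 1) * (Nat.primeCounting y : ℝ) <
        |(S x.1.1 x.2.1 (gp (Subgroup.closure (x.2.2.1 : Set ℚˣ)) x.2.2.2.2.1 x.2.2.2.2.2.1 t)
            x.2.2.2.1 y : ℝ) -
          δ x.1.1 x.2.1 (gp (Subgroup.closure (x.2.2.1 : Set ℚˣ)) x.2.2.2.2.1 x.2.2.2.2.2.1 t)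
            x.2.2.2.1 * (Nat.primeCounting y : ℝ)|

/-- **Lenstra's density in residue classes without exceptions.** -/
theorem result (θ C₀ : ℝ) (hθ : 1 / 2 < θ) (hθ1 : θ < 1) (hC₀ : 1 < C₀)
    (hCθ : θ * (1 - θ) < C₀ * (2 * θ - 1)) :
    ∃ c : ℝ, 0 < c ∧ ∀ (p : ℕ) [Fact p.Prime] (σ C₁ : ℝ), 0 < σ → C₀ < C₁ →
      ∃ E : Set ℤ_[p], dimH E ≤ ENNReal.ofReal (θ / σ) ∧ ∀ α : ℤ_[p], α ∉ E →
      ∀ (F : IntermediateField ℚ (AlgebraicClosure ℚ)) [NumberField F] [IsGalois ℚ F]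
        (C : Set (F ≃ₐ[ℚ] F)) (W₀ : Subgroup ℚˣ) (k : ℕ) (D : ℚˣ) (r : ℕ),
        (∀ σ ∈ C, ∀ τ : F ≃ₐ[ℚ] F, τ * σ * τ⁻¹ ∈ C) → W₀.FG → 0 < k →
        0 < r → (∀ l : ℕ, l.Prime → l ∣ r → l ^ (k.factorization l + 1) ∣ r) →
        ∀ ε : ℝ, 0 < ε → ∃ Y₀ : ℝ, ∀ Y : ℝ, Y₀ ≤ Y → ∀ t : ℕ, 1 ≤ t → (t : ℝ) ≤ Y →
          ‖(t : ℤ_[p]) - α‖ ≤ Y ^ (-σ) →
          ∀ x : ℕ, (t : ℝ) ^ C₁ ≤ x → (x : ℝ) ≤ Real.exp ((Real.log t) ^ (1 + c)) →
            |(S F C (gp W₀ D r t) k x : ℝ) - δ F C (gp W₀ D r t) k * (Nat.primeCounting x : ℝ)| ≤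
              ε * (Nat.primeCounting x : ℝ) := by
  obtain ⟨c, hc, hfew⟩ := Pool.Agent.Results.MP_48b1c3_nt.FewExceptions.result θ C₀ hθ hθ1 hC₀ hCθ
  refine ⟨c, hc, fun p _ σ C₁ hσ hC₁ => ?_⟩
  have := countable_ix
  have hall : ∀ x : Ix, ∃ E : Set ℤ_[p], dimH E ≤ ENNReal.ofReal (θ / σ) ∧
      ∀ α ∉ E, ∃ Y₀ : ℝ, ∀ Y ≥ Y₀, ∀ t : ℕ, (t : ℝ) ≤ Y → ‖(t : ℤ_[p]) - α‖ ≤ Y ^ (-σ) →
        t ∉ {t : ℕ | 1 ≤ t ∧ Bad x ((t : ℝ) ^ C₁) (Real.exp ((Real.log t) ^ (1 + c))) t} := by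
    intro x
    have e1 : ∀ᶠ X : ℕ in atTop, (2 : ℝ) ^ C₀ ≤ ((X : ℝ) / 2) ^ (C₁ - C₀) :=
      ((tendsto_rpow_atTop (by linarith)).comp
        (tendsto_natCast_atTop_atTop.atTop_div_const (by norm_num))).eventually_ge_atTop _
    obtain ⟨X₁, hX₁⟩ := eventually_atTop.1 e1
    have hcount : ∃ X₀ : ℕ, ∀ X : ℕ, X₀ ≤ X → ({t : ℕ | 1 ≤ t ∧ t ≤ X ∧
        Bad x ((X : ℝ) ^ C₀) (Real.exp ((Real.log X) ^ (1 + c))) t}.ncard : ℝ) ≤ (X : ℝ) ^ θ := by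
      obtain ⟨⟨F, hF⟩, C, T, k, D, r, j⟩ := x
      have := hF
      by_cases hcond : IsGalois ℚ F ∧ (∀ σ ∈ C, ∀ τ : F ≃ₐ[ℚ] F, τ * σ * τ⁻¹ ∈ C) ∧ 0 < k ∧ 0 < r ∧
          (∀ l : ℕ, l.Prime → l ∣ r → l ^ (k.factorization l + 1) ∣ r)
      · obtain ⟨h1, h2, h3, h4, h5⟩ := hcond
        obtain ⟨N₀, hN₀⟩ := hfew F C (Subgroup.closure (T : Set ℚˣ)) k D r h2 ⟨T, rfl⟩ h3 h4 h5
          (1 / ((j : ℝ) + 1)) (by positivity)
        refine ⟨N₀, fun X hX => (le_trans (le_of_eq ?_) (hN₀ X hX))⟩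
        rw [← Set.ncard_coe_finset]
        congr 2
        ext t
        rw [Finset.coe_filter]
        constructor
        · rintro ⟨h6, h7, -, -, -, -, -, h8⟩
          exact ⟨Finset.mem_Icc.2 ⟨h6, h7⟩, h8⟩
        · rintro ⟨h6, h8⟩
          exact ⟨(Finset.mem_Icc.1 h6).1, (Finset.mem_Icc.1 h6).2, h1, h2, h3, h4, h5, h8⟩
      · refine ⟨0, fun X _ => ?_⟩
        have : {t : ℕ | 1 ≤ t ∧ t ≤ X ∧ Bad ⟨⟨F, hF⟩, C, T, k, D, r, j⟩ ((X : ℝ) ^ C₀)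
            (Real.exp ((Real.log X) ^ (1 + c))) t} = ∅ := by
          rw [Set.eq_empty_iff_forall_notMem]
          rintro t ⟨-, -, h1, h2, h3, h4, h5, -⟩
          exact hcond ⟨h1, h2, h3, h4, h5⟩
        rw [this, Set.ncard_empty, Nat.cast_zero]
        positivity
    obtain ⟨X₀, hX₀⟩ := hcount
    refine Pool.Agent.V1176.SQ.padic_of_bad p (by linarith) hσ _
      (fun X t => Bad x ((X : ℝ) ^ C₀) (Real.exp ((Real.log X) ^ (1 + c))) t) (max X₀ X₁)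
      (fun X hX => hX₀ X ((le_max_left _ _).trans hX)) ?_
    rintro X hX t ⟨-, g1, g2, g3, g4, g5, y, ⟨hy1, hy2⟩, hy3⟩ ht hXt htX
    refine ⟨g1, g2, g3, g4, g5, y, ⟨?_, ?_⟩, hy3⟩
    · have h1 := hX₁ X ((le_max_right _ _).trans hX)
      have ht0 : (0 : ℝ) < t := by exact_mod_cast ht
      have h2 : (X : ℝ) / 2 ≤ t := by
        have : (X : ℝ) < 2 * t := by exact_mod_cast hXt
        linarith
      have h3 : ((X : ℝ) / 2) ^ (C₁ - C₀) ≤ (t : ℝ) ^ (C₁ - C₀) :=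
        Real.rpow_le_rpow (by positivity) h2 (by linarith)
      refine le_trans ?_ hy1
      calc (X : ℝ) ^ C₀ ≤ (2 * (t : ℝ)) ^ C₀ := Real.rpow_le_rpow (Nat.cast_nonneg _)
            (by linarith) (by linarith)
        _ = (2 : ℝ) ^ C₀ * (t : ℝ) ^ C₀ := Real.mul_rpow (by norm_num) ht0.le
        _ ≤ (t : ℝ) ^ (C₁ - C₀) * (t : ℝ) ^ C₀ :=
            mul_le_mul_of_nonneg_right (h1.trans h3) (Real.rpow_nonneg ht0.le _)
        _ = (t : ℝ) ^ C₁ := by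
            rw [← Real.rpow_add ht0]
            congr 1
            ring
    · refine hy2.trans (Real.exp_le_exp.2 ?_)
      have ht1 : (1 : ℝ) ≤ t := by exact_mod_cast ht
      refine Real.rpow_le_rpow (Real.log_nonneg ht1) ?_ (by linarith)
      exact Real.log_le_log (by linarith) (by exact_mod_cast htX)
  choose E hE1 hE2 using hall
  refine ⟨⋃ x, E x, ?_, fun α hαE F _ _ C W₀ k D r hC hW₀ hk hr hrk ε hε => ?_⟩
  · rw [dimH_iUnion]
    exact iSup_le hE1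
  · obtain ⟨T, rfl⟩ := hW₀
    obtain ⟨j, hj⟩ := exists_nat_ge (1 / ε)
    obtain ⟨Y₀, hY₀⟩ := hE2 ⟨⟨F, inferInstance⟩, C, T, k, D, r, j⟩ α
      (fun h => hαE (Set.mem_iUnion.2 ⟨_, h⟩))
    refine ⟨Y₀, fun Y hY t ht htY hw x hx1 hx2 => ?_⟩
    by_contra hcon
    push Not at hcon
    refine hY₀ Y hY t htY hw ⟨ht, inferInstance, hC, hk, hr, hrk, x, ⟨hx1, hx2⟩,
      lt_of_le_of_lt ?_ hcon⟩
    refine mul_le_mul_of_nonneg_right ?_ (Nat.cast_nonneg _)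
    rw [div_le_iff₀ (by positivity)]
    rw [div_le_iff₀ hε] at hj
    simp only
    nlinarith

end Pool.Agent.Results.MP_48b1c3_nt.ResidueClasses
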