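import Pool.Agent.V11150.LenP

/-!
# Lenstra's law for ALL integers in thin families of windows

Let `v n ≥ 1` be a sequence with exponent of convergence at most `τ` (`1 / b` for `n ^ b`, `0` for `b ^ n`) and
`θ < 1`. For `α > 0` consider all the integers `m` in the windows `|m - α v n| ≤ (v n) ^ θ`.

For all `α > 0` outside a set of Hausdorff dimension at most `(s + τ) / (1 - θ)` (`1 / 2 < s < 1`) Lenstra's
asymptotic formula holds for all data `(F, C, W, k)`, `W = ⟨W₀, D m ^ r⟩`, for all large `n` and ALL the integers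
`m` in the `n`-th window, at EVERY `x` with `m ^ C ≤ x ≤ exp ((log m) ^ (1 + κ))`; for the primes in the windows
even at every `x` with `q ^ C ≤ x ≤ exp (q ^ a)`. With exponents depending on `α` the dimension is at most
`(1 / 2 + τ) / (1 - θ)`.

Proof: the starting results `FewExceptions` and `PrimeMultiples` (exceptional sets of `N ^ s` integers),
countability of the data, and the metric theorem on windows of helper109 (`V11109.WIN`), with the arrangement of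
the proofs in `MP_991e92_nt.SequenceWindows` (helper109, the case of primitive roots).
-/

set_option autoImplicit false

namespace Pool.Agent.Results.MP_48b1c3_nt.SequenceWindows

open NumberField Filter Topology

/-- the number of primes `q ≤ x` in the set of Q1 -/
noncomputable def S (F : IntermediateField ℚ (AlgebraicClosure ℚ)) [NumberField F]
    (C : Set (F ≃ₐ[ℚ] F)) (W : Subgroup ℚˣ) (k x : ℕ) : ℕ :=
  Nat.card {q : ℕ // q ≤ x ∧ q.Prime ∧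
    (∃ σ ∈ C, ∃ Q : Ideal (𝓞 F), Q.IsPrime ∧
        Q.comap (algebraMap ℤ (𝓞 F)) = Ideal.span {(q : ℤ)} ∧
        ∀ a b : 𝓞 F, (b : F) = σ (a : F) → b - a ^ q ∈ Q) ∧
    (∀ w ∈ W, padicValRat q (w : ℚ) = 0) ∧
    (Subgroup.closure {u : (ZMod q)ˣ | ∃ w ∈ W,
        (((w : ℚ).num : ℤ) : ZMod q) = (u : ZMod q) * (((w : ℚ).den : ℕ) : ZMod q)}).index ∣ k}

/-- Lenstra's density -/
noncomputable def δ (F : IntermediateField ℚ (AlgebraicClosure ℚ)) [NumberField F]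
    (C : Set (F ≃ₐ[ℚ] F)) (W : Subgroup ℚˣ) (k : ℕ) : ℝ :=
  ∑' n : ℕ, (ArithmeticFunction.moebius n : ℝ) *
    (Nat.card {σ : F ≃ₐ[ℚ] F // σ ∈ C ∧ ∀ y : F,
        (y : AlgebraicClosure ℚ) ∈ IntermediateField.adjoin ℚ
          {z : AlgebraicClosure ℚ | ∃ w ∈ W,
            z ^ (∏ l ∈ n.primeFactors, l ^ (k.factorization l + 1)) =
              algebraMap ℚ (AlgebraicClosure ℚ) (w : ℚ)} → σ y = y} : ℝ) /
    (Module.finrank ℚ ↥(F ⊔ IntermediateField.adjoin ℚ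
          {z : AlgebraicClosure ℚ | ∃ w ∈ W,
            z ^ (∏ l ∈ n.primeFactors, l ^ (k.factorization l + 1)) =
              algebraMap ℚ (AlgebraicClosure ℚ) (w : ℚ)}) : ℝ)

/-- the group `⟨W₀, D m ^ r⟩` -/
def grp (W₀ : Subgroup ℚˣ) (D : ℚˣ) (m r : ℕ) : Subgroup ℚˣ :=
  W₀ ⊔ Subgroup.closure {w : ℚˣ | (w : ℚ) = (D : ℚ) * (m : ℚ) ^ r}

/-- Let `R n m x` be a relation (here: `m` is near the `n`-th member of a sequence, and `x` is in the admissible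
range). For all data, `W = ⟨W₀, D m ^ r⟩`, and `ε > 0`, for all large `n` and all `m`, `x` with `R n m x`:
`|S(x) - δ(F, C, W, k) π(x)| ≤ ε π(x)`. Here `F / ℚ` is a finite Galois extension, `C` is stable under
conjugation, `W₀` is finitely generated, `k ≥ 1`, `D` is a nonzero rational number, and `r ≥ 1` is such that
`ℓ ^ (ν_ℓ(k) + 1)` divides `r` for all primes `ℓ ∣ r`. -/
def Law (R : ℕ → ℕ → ℕ → Prop) : Prop :=
  ∀ (F : IntermediateField ℚ (AlgebraicClosure ℚ)) [NumberField F] [IsGalois ℚ F]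
    (C : Set (F ≃ₐ[ℚ] F)) (W₀ : Subgroup ℚˣ) (k : ℕ) (D : ℚˣ) (r : ℕ),
    (∀ σ ∈ C, ∀ τ : F ≃ₐ[ℚ] F, τ * σ * τ⁻¹ ∈ C) → W₀.FG → 0 < k →
    0 < r → (∀ l : ℕ, l.Prime → l ∣ r → l ^ (k.factorization l + 1) ∣ r) →
    ∀ ε : ℝ, 0 < ε → ∃ n₀ : ℕ, ∀ n : ℕ, n₀ ≤ n → ∀ m x : ℕ, R n m x →
      |(S F C (grp W₀ D m r) k x : ℝ) - δ F C (grp W₀ D m r) k * (Nat.primeCounting x : ℝ)| ≤
        ε * (Nat.primeCounting x : ℝ)

/-- the exponent of convergence of the sequence `v` is at most `τ` -/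
def ExpLe (v : ℕ → ℝ) (τ : ℝ) : Prop := ∀ t : ℝ, τ < t → Summable (fun n : ℕ => (v n) ^ (-t))

/-- `m` is in the `n`-th window and `x` in the range for integers -/
def Int (v : ℕ → ℝ) (θ α C κ : ℝ) (n m x : ℕ) : Prop :=
  |(m : ℝ) - α * v n| ≤ (v n) ^ θ ∧ (m : ℝ) ^ C ≤ x ∧ (x : ℝ) ≤ Real.exp ((Real.log m) ^ (1 + κ))

/-- `q` is a prime in the `n`-th window and `x` is in the range for primes -/
def Pri (v : ℕ → ℝ) (θ α C a : ℝ) (n q x : ℕ) : Prop :=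
  q.Prime ∧ |(q : ℝ) - α * v n| ≤ (v n) ^ θ ∧ (q : ℝ) ^ C ≤ x ∧ (x : ℝ) ≤ Real.exp ((q : ℝ) ^ a)

theorem result :
    -- 1. integers, the exponents in terms of `s`
    (∀ s C : ℝ, 1 / 2 < s → s < 1 → 1 < C → s * (1 - s) < C * (2 * s - 1) →
      ∃ κ : ℝ, 0 < κ ∧ ∀ (v : ℕ → ℝ) (τ θ : ℝ), (∀ n, 1 ≤ v n) → 0 ≤ τ → ExpLe v τ → θ < 1 →
        ∃ E : Set ℝ, dimH E ≤ ENNReal.ofReal ((s + τ) / (1 - θ)) ∧
          ∀ α : ℝ, 0 < α → α ∉ E → Law (Int v θ α C κ)) ∧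
    -- 2. a smaller exceptional set, with exponents which depend on `α`
    (∀ (v : ℕ → ℝ) (τ θ : ℝ), (∀ n, 1 ≤ v n) → 0 ≤ τ → ExpLe v τ → θ < 1 →
      ∃ E : Set ℝ, dimH E ≤ ENNReal.ofReal ((1 / 2 + τ) / (1 - θ)) ∧
        ∀ α : ℝ, 0 < α → α ∉ E → ∃ C κ : ℝ, 1 < C ∧ 0 < κ ∧ Law (Int v θ α C κ)) ∧
    -- 3. primes
    (∀ a s C : ℝ, 0 < a → 1 / 2 + 2 * a < s → s < 1 → 1 < C → s * (1 - s) < C * (2 * s - 1) →
      ∀ (v : ℕ → ℝ) (τ θ : ℝ), (∀ n, 1 ≤ v n) → 0 ≤ τ → ExpLe v τ → θ < 1 →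
        ∃ E : Set ℝ, dimH E ≤ ENNReal.ofReal ((s + τ) / (1 - θ)) ∧
          ∀ α : ℝ, 0 < α → α ∉ E → Law (Pri v θ α C a)) ∧
    -- 4. examples of sequences
    (∀ b : ℝ, 0 < b → ExpLe (fun n : ℕ => ((n : ℝ) + 1) ^ b) (1 / b)) ∧
    (∀ b : ℝ, 1 < b → ExpLe (fun n : ℕ => b ^ n) 0) := by
  refine ⟨?_, ?_, ?_, Pool.Agent.Y854.GM.expLe_pow, Pool.Agent.Y854.GM.expLe_geom⟩
  · intro s C hs hs1 hC hCs
    obtain ⟨κ, hκ, h⟩ := Pool.Agent.V11150.LenW.windows hs hs1 hC hCs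
    refine ⟨κ, hκ, fun v τ θ hpos hτ hv hθ1 => ?_⟩
    obtain ⟨E, hE, h1⟩ := h v τ θ hpos hτ hv hθ1
    refine ⟨E, hE, fun α hα hαE => ?_⟩
    intro F _ _ C' W₀ k D r g1 g2 g3 g4 g5 ε hε
    obtain ⟨n₀, hn₀⟩ := h1 α hα hαE F C' W₀ k D r g1 g2 g3 g4 g5 ε hε
    exact ⟨n₀, fun n hn m x hx => hn₀ n hn m hx.1 x hx.2.1 hx.2.2⟩
  · intro v τ θ hpos hτ hv hθ1
    obtain ⟨E, hE, h1⟩ := Pool.Agent.V11150.LenW.windows2 v τ θ hpos hτ hv hθ1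
    refine ⟨E, hE, fun α hα hαE => ?_⟩
    obtain ⟨C, κ, hC, hκ, h2⟩ := h1 α hα hαE
    refine ⟨C, κ, hC, hκ, ?_⟩
    intro F _ _ C' W₀ k D r g1 g2 g3 g4 g5 ε hε
    obtain ⟨n₀, hn₀⟩ := h2 F C' W₀ k D r g1 g2 g3 g4 g5 ε hε
    exact ⟨n₀, fun n hn m x hx => hn₀ n hn m hx.1 x hx.2.1 hx.2.2⟩
  · intro a s C ha hs hs1 hC hCs v τ θ hpos hτ hv hθ1
    obtain ⟨E, hE, h1⟩ := Pool.Agent.V11150.LenP.windows ha hs hs1 hC hCs v τ θ hpos hτ hv hθ1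
    refine ⟨E, hE, fun α hα hαE => ?_⟩
    intro F _ _ C' W₀ k D r g1 g2 g3 g4 g5 ε hε
    obtain ⟨n₀, hn₀⟩ := h1 α hα hαE F C' W₀ k D r g1 g2 g3 g4 g5 ε hε
    exact ⟨n₀, fun n hn q x hx => hn₀ n hn q hx.1 hx.2.1 x hx.2.2.1 hx.2.2.2⟩

end Pool.Agent.Results.MP_48b1c3_nt.SequenceWindows
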